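import Mathlib

namespace Pool.Agent.Results.MP_eefcda_al.FinGenCP

/-- A categorical quasiproduct (CQP) monoid structure on a monoid `M`. -/
structure CQP (M : Type) [Monoid M] where
  /-- the binary operation `Σ` -/
  sg : M → M → M
  /-- the first projection -/
  p1 : M
  /-- the second projection -/
  p2 : M
  p1_sg : ∀ a b, p1 * sg a b = a
  p2_sg : ∀ a b, p2 * sg a b = b
  sg_mul : ∀ a b c, sg a b * c = sg (a * c) (b * c)

/-- A CQP monoid is a categorical product (CP) monoid if `Σ(π₁, π₂) = 1`. -/
def CQP.IsCP {M : Type} [Monoid M] (S : CQP M) : Prop := S.sg S.p1 S.p2 = 1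

/-- The set generated by a set `X` of elements of a CQP monoid under left multiplication by
elements of `X` and `Σ`, starting from `1`. -/
inductive Gen {M : Type} [Monoid M] (S : CQP M) (X : Set M) : M → Prop
  | one : Gen S X 1
  | mul {g a : M} : g ∈ X → Gen S X a → Gen S X (g * a)
  | sg {a b : M} : Gen S X a → Gen S X b → Gen S X (S.sg a b)

theorem Gen.mul' {M : Type} [Monoid M] {S : CQP M} {X : Set M} {a b : M}
    (ha : Gen S X a) (hb : Gen S X b) : Gen S X (a * b) := by
  induction ha with
  | one => simpa using hb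
  | mul hg _ ih => rw [mul_assoc]; exact Gen.mul hg ih
  | sg _ _ ih1 ih2 => rw [S.sg_mul]; exact Gen.sg ih1 ih2

section machine

variable {M : Type} [Monoid M] (S : CQP M)

/-- start -/
def ini : M := S.sg 1 1
/-- push the input -/
def push : M := S.sg S.p1 (S.sg S.p1 S.p2)
/-- apply `g` to the top of the stack -/
def app (g : M) : M := S.sg S.p1 (S.sg (g * (S.p1 * S.p2)) (S.p2 * S.p2))
/-- pair the two topmost entries of the stack -/
def comb : M := S.sg S.p1 (S.sg (S.sg (S.p1 * (S.p2 * S.p2)) (S.p1 * S.p2)) (S.p2 * (S.p2 * S.p2)))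
/-- read off the top of the stack -/
def extr : M := S.p1 * S.p2

/-- the machine element which pushes the value of `a` -/
def val (a : M) : M := S.sg S.p1 (S.sg (a * S.p1) S.p2)

theorem extr_val_ini (a : M) : extr S * (val S a * ini S) = a := by
  have h1 : val S a * ini S = S.sg 1 (S.sg a 1) := by
    simp only [val, ini, S.sg_mul, mul_assoc, S.p1_sg, S.p2_sg, mul_one]
  rw [h1, extr, mul_assoc, S.p2_sg, S.p1_sg]

theorem val_one : val S 1 = push S := by
  simp [val, push]

theorem app_val (g a : M) : app S g * val S a = val S (g * a) := by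
  simp only [app, val, S.sg_mul, mul_assoc, S.p1_sg, S.p2_sg]

theorem comb_val (a b : M) : comb S * (val S b * val S a) = val S (S.sg a b) := by
  simp only [comb, val, S.sg_mul, mul_assoc, S.p1_sg, S.p2_sg]

theorem val_mem (X : Set M) {a : M} (ha : Gen S X a) :
    val S a ∈ Submonoid.closure (insert (push S) (insert (comb S) (app S '' X))) := by
  induction ha with
  | one =>
    rw [val_one]
    exact Submonoid.subset_closure (Set.mem_insert _ _)
  | @mul g a hg _ ih =>
    rw [← app_val]
    refine Submonoid.mul_mem _ (Submonoid.subset_closure ?_) ih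
    exact Set.mem_insert_of_mem _ (Set.mem_insert_of_mem _ ⟨g, hg, rfl⟩)
  | @sg a b _ _ ih1 ih2 =>
    rw [← comb_val]
    refine Submonoid.mul_mem _ (Submonoid.subset_closure ?_) (Submonoid.mul_mem _ ih2 ih1)
    exact Set.mem_insert_of_mem _ (Set.mem_insert _ _)

/-- A CQP monoid which is finitely generated under multiplication and `Σ` is finitely generated
as a monoid. -/
theorem fg_of_gen (X : Set M) (hX : X.Finite) (h : ∀ a, Gen S X a) : Monoid.FG M := by
  rw [Monoid.fg_def, Submonoid.fg_iff]
  refine ⟨insert (ini S) (insert (extr S) (insert (push S) (insert (comb S) (app S '' X)))), ?_,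
    ((((hX.image _).insert _).insert _).insert _).insert _⟩
  rw [eq_top_iff]
  intro a _
  rw [← extr_val_ini S a]
  refine Submonoid.mul_mem _ (Submonoid.subset_closure ?_) (Submonoid.mul_mem _ ?_
    (Submonoid.subset_closure (Set.mem_insert _ _)))
  · exact Set.mem_insert_of_mem _ (Set.mem_insert _ _)
  · refine Submonoid.closure_mono ?_ (val_mem S X (h a))
    intro x hx
    exact Set.mem_insert_of_mem _ (Set.mem_insert_of_mem _ hx)

end machine

/-- The CP structure on the monoid of all functions `ℕ → ℕ` given by a pairing bijection. -/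
def natCQP : CQP (Function.End ℕ) where
  sg a b := fun n => Nat.pair (a n) (b n)
  p1 := fun n => (Nat.unpair n).1
  p2 := fun n => (Nat.unpair n).2
  p1_sg a b := by
    funext n
    change (Nat.unpair (Nat.pair (a n) (b n))).1 = a n
    simp
  p2_sg a b := by
    funext n
    change (Nat.unpair (Nat.pair (a n) (b n))).2 = b n
    simp
  sg_mul _ _ _ := rfl

theorem natCQP_isCP : natCQP.sg natCQP.p1 natCQP.p2 = 1 := by
  funext n
  exact Nat.pair_unpair n

/-- The submonoid generated under `Σ` and multiplication by the projections. -/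
def T : Submonoid (Function.End ℕ) where
  carrier := {a | Gen natCQP {natCQP.p1, natCQP.p2} a}
  mul_mem' ha hb := ha.mul' hb
  one_mem' := Gen.one

theorem p1_mem : natCQP.p1 ∈ T := by
  have : Gen natCQP {natCQP.p1, natCQP.p2} (natCQP.p1 * 1) := Gen.mul (by simp) Gen.one
  rwa [mul_one] at this

theorem p2_mem : natCQP.p2 ∈ T := by
  have : Gen natCQP {natCQP.p1, natCQP.p2} (natCQP.p2 * 1) := Gen.mul (by simp) Gen.one
  rwa [mul_one] at this

/-- The CP structure on `T`. -/
def tCQP : CQP T where
  sg a b := ⟨natCQP.sg a b, Gen.sg a.2 b.2⟩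
  p1 := ⟨natCQP.p1, p1_mem⟩
  p2 := ⟨natCQP.p2, p2_mem⟩
  p1_sg _ _ := Subtype.ext (natCQP.p1_sg _ _)
  p2_sg _ _ := Subtype.ext (natCQP.p2_sg _ _)
  sg_mul _ _ _ := Subtype.ext (natCQP.sg_mul _ _ _)

theorem t_gen (a : T) : Gen tCQP {tCQP.p1, tCQP.p2} a := by
  obtain ⟨a, ha⟩ := a
  induction ha with
  | one => exact Gen.one
  | @mul g a hg h ih =>
    have hg' : g = natCQP.p1 ∨ g = natCQP.p2 := by simpa using hg
    rcases hg' with rfl | rfl
    · exact Gen.mul (g := tCQP.p1) (by simp) ih
    · exact Gen.mul (g := tCQP.p2) (by simp) ih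
  | sg h1 h2 ih1 ih2 => exact Gen.sg ih1 ih2

/-- There is a categorical product monoid with at least two elements whose underlying monoid is
finitely generated. -/
theorem result : ∃ (M : Type) (_ : Monoid M) (S : CQP M),
    S.IsCP ∧ Nontrivial M ∧ ∃ G : Finset M, Submonoid.closure (G : Set M) = ⊤ := by
  refine ⟨T, inferInstance, tCQP, Subtype.ext natCQP_isCP, ?_, ?_⟩
  · refine ⟨⟨1, tCQP.p1, ?_⟩⟩
    intro h
    have h1 : (1 : Function.End ℕ) = natCQP.p1 := congrArg Subtype.val h
    have h2 : Nat.pair 0 1 = (Nat.unpair (Nat.pair 0 1)).1 := congrFun h1 (Nat.pair 0 1)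
    revert h2
    decide
  · have := fg_of_gen tCQP {tCQP.p1, tCQP.p2} (Set.toFinite _) t_gen
    obtain ⟨G, hG⟩ := this.fg_top
    exact ⟨G, hG⟩

end Pool.Agent.Results.MP_eefcda_al.FinGenCP
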